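import Mathlib

/-!
# Games with permutation feedback: linear algebra

`V n d`: the functions on the permutations of `Fin n` spanned by the products of powers
`∏ i, (w i) ^ (b i)` with all `b i ≤ d`.
-/

open Finset Polynomial

namespace Q156.PW

/-- A strategy: the next guess, an arbitrary string, as a function of the feedback so far. -/
abbrev Strategy (n : ℕ) := List (Finset (Fin n)) → (Fin n → Fin n)

/-- The feedback: the set of the positions at which the guess is correct. -/
def feedback {n : ℕ} (g : Fin n → Fin n) (σ : Equiv.Perm (Fin n)) : Finset (Fin n) :=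
  univ.filter (fun i => g i = σ i)

/-- The feedback of the first `r` rounds. -/
def history {n : ℕ} (S : Strategy n) (σ : Equiv.Perm (Fin n)) : ℕ → List (Finset (Fin n))
  | 0 => []
  | r + 1 => history S σ r ++ [feedback (S (history S σ r)) σ]

/-- The guess in round `r + 1`. -/
def guess {n : ℕ} (S : Strategy n) (σ : Equiv.Perm (Fin n)) (r : ℕ) : Fin n → Fin n :=
  S (history S σ r)

/-- One of the first `r` guesses is the hidden permutation. -/
def WinsWithin {n : ℕ} (S : Strategy n) (σ : Equiv.Perm (Fin n)) (r : ℕ) : Prop :=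
  ∃ s, s < r ∧ guess S σ s = σ

open Classical in
/-- The number of the permutations found within `r` rounds. -/
noncomputable def winCount {n : ℕ} (S : Strategy n) (r : ℕ) : ℕ :=
  (univ.filter (fun σ : Equiv.Perm (Fin n) => WinsWithin S σ r)).card

variable {n : ℕ}

/-- The monomial function with exponents `b`. -/
def mono (b : Fin n → ℕ) : Equiv.Perm (Fin n) → ℚ := fun w => ∏ i, ((w i : ℕ) : ℚ) ^ b i

/-- The functions of box degree at most `d`. -/
def V (n d : ℕ) : Submodule ℚ (Equiv.Perm (Fin n) → ℚ) :=
  Submodule.span ℚ {f | ∃ b : Fin n → ℕ, (∀ i, b i ≤ d) ∧ f = mono b}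

lemma mem_V {d : ℕ} (q : Fin n → ℚ[X]) (hq : ∀ i, (q i).natDegree ≤ d) :
    (fun w : Equiv.Perm (Fin n) => ∏ i, (q i).eval ((w i : ℕ) : ℚ)) ∈ V n d := by
  have h : (fun w : Equiv.Perm (Fin n) => ∏ i, (q i).eval ((w i : ℕ) : ℚ)) =
      ∑ b ∈ Fintype.piFinset (fun _ : Fin n => range (d + 1)),
        (∏ i, (q i).coeff (b i)) • mono b := by
    funext w
    simp only [Finset.sum_apply, Pi.smul_apply, smul_eq_mul, mono]
    have h1 : ∀ i, (q i).eval ((w i : ℕ) : ℚ) =
        ∑ k ∈ range (d + 1), (q i).coeff k * ((w i : ℕ) : ℚ) ^ k := fun i =>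
      Polynomial.eval_eq_sum_range' (Nat.lt_succ_of_le (hq i)) _
    simp_rw [h1]
    rw [Finset.prod_univ_sum]
    refine Finset.sum_congr rfl fun b _ => ?_
    rw [Finset.prod_mul_distrib]
  rw [h]
  refine Submodule.sum_mem _ fun b hb => Submodule.smul_mem _ _ (Submodule.subset_span ⟨b, ?_, rfl⟩)
  intro i
  have := Fintype.mem_piFinset.mp hb i
  exact Nat.lt_succ_iff.mp (Finset.mem_range.mp this)

/-- The sign pairing. -/
lemma pair_mono (b c : Fin n → ℕ) {d d' : ℕ} (hb : ∀ i, b i ≤ d) (hc : ∀ i, c i ≤ d')
    (h : d + d' + 2 ≤ n) :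
    ∑ w : Equiv.Perm (Fin n), ((Equiv.Perm.sign w : ℤ) : ℚ) * (mono b w * mono c w) = 0 := by
  classical
  let M : Matrix (Fin n) (Fin n) ℚ := fun j i => ((j : ℕ) : ℚ) ^ (b i + c i)
  have hdet : M.det = ∑ w : Equiv.Perm (Fin n),
      ((Equiv.Perm.sign w : ℤ) : ℚ) * (mono b w * mono c w) := by
    rw [Matrix.det_apply]
    refine Finset.sum_congr rfl fun w _ => ?_
    rw [Units.smul_def, zsmul_eq_mul]
    congr 1
    simp only [mono, ← Finset.prod_mul_distrib, ← pow_add, M]
  rw [← hdet]
  obtain ⟨i, j, hij, hij2⟩ : ∃ i j : Fin n, i ≠ j ∧ b i + c i = b j + c j := by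
    have hcard : (range (d + d' + 1)).card < (univ : Finset (Fin n)).card := by
      rw [card_range, card_univ, Fintype.card_fin]; omega
    obtain ⟨i, _, j, _, hij, h2⟩ := Finset.exists_ne_map_eq_of_card_lt_of_maps_to hcard
      (f := fun i => b i + c i) (fun i _ => by
        simp only [Finset.coe_range, Set.mem_Iio]
        have := hb i; have := hc i; omega)
    exact ⟨i, j, hij, h2⟩
  refine Matrix.det_zero_of_column_eq hij fun k => ?_
  simp only [M, hij2]

lemma pair_V {d d' : ℕ} (h : d + d' + 2 ≤ n) {f g : Equiv.Perm (Fin n) → ℚ}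
    (hf : f ∈ V n d) (hg : g ∈ V n d') :
    ∑ w : Equiv.Perm (Fin n), ((Equiv.Perm.sign w : ℤ) : ℚ) * (f w * g w) = 0 := by
  refine Submodule.span_induction (p := fun f _ => ∑ w : Equiv.Perm (Fin n),
    ((Equiv.Perm.sign w : ℤ) : ℚ) * (f w * g w) = 0) ?_ ?_ ?_ ?_ hf
  · rintro f ⟨b, hb, rfl⟩
    refine Submodule.span_induction (p := fun g _ => ∑ w : Equiv.Perm (Fin n),
      ((Equiv.Perm.sign w : ℤ) : ℚ) * (mono b w * g w) = 0) ?_ ?_ ?_ ?_ hg
    · rintro g ⟨c, hc, rfl⟩
      exact pair_mono b c hb hc h
    · simp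
    · intro x y _ _ hx hy
      simp only [Pi.add_apply, mul_add, Finset.sum_add_distrib, hx, hy, add_zero]
    · intro a x _ hx
      have : ∀ w : Equiv.Perm (Fin n), ((Equiv.Perm.sign w : ℤ) : ℚ) * (mono b w * (a • x) w) =
          a * (((Equiv.Perm.sign w : ℤ) : ℚ) * (mono b w * x w)) := by
        intro w; simp only [Pi.smul_apply, smul_eq_mul]; ring
      simp only [this, ← Finset.mul_sum, hx, mul_zero]
  · simp
  · intro x y _ _ hx hy
    simp only [Pi.add_apply, add_mul, mul_add, Finset.sum_add_distrib, hx, hy, add_zero]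
  · intro a x _ hx
    have : ∀ w : Equiv.Perm (Fin n), ((Equiv.Perm.sign w : ℤ) : ℚ) * ((a • x) w * g w) =
        a * (((Equiv.Perm.sign w : ℤ) : ℚ) * (x w * g w)) := by
      intro w; simp only [Pi.smul_apply, smul_eq_mul]; ring
    simp only [this, ← Finset.mul_sum, hx, mul_zero]

/-- Multiplication by the sign. -/
def sgnMap (n : ℕ) : (Equiv.Perm (Fin n) → ℚ) →ₗ[ℚ] (Equiv.Perm (Fin n) → ℚ) where
  toFun f := fun w => ((Equiv.Perm.sign w : ℤ) : ℚ) * f w
  map_add' f g := by funext w; simp [mul_add]
  map_smul' a f := by funext w; simp only [Pi.smul_apply, smul_eq_mul, RingHom.id_apply]; ring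

lemma sgn_sq (w : Equiv.Perm (Fin n)) :
    ((Equiv.Perm.sign w : ℤ) : ℚ) * ((Equiv.Perm.sign w : ℤ) : ℚ) = 1 := by
  rcases Int.units_eq_one_or (Equiv.Perm.sign w) with h | h <;> simp [h]

lemma sgnMap_injective (n : ℕ) : Function.Injective (sgnMap n) := by
  intro f g h
  funext w
  have h1 := congrFun h w
  simp only [sgnMap, LinearMap.coe_mk, AddHom.coe_mk] at h1
  have h2 := congrArg (fun x => ((Equiv.Perm.sign w : ℤ) : ℚ) * x) h1
  simp only [← mul_assoc, sgn_sq, one_mul] at h2
  exact h2

lemma finrank_V_add {d d' : ℕ} (h : d + d' + 2 ≤ n) :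
    Module.finrank ℚ (V n d) + Module.finrank ℚ (V n d') ≤ n.factorial := by
  have hdisj : Disjoint (V n d) ((V n d').map (sgnMap n)) := by
    rw [Submodule.disjoint_def]
    rintro f hf ⟨g, hg, rfl⟩
    have h1 := pair_V h hf hg
    have h2 : ∑ w : Equiv.Perm (Fin n), (sgnMap n g w) * (sgnMap n g w) = 0 := by
      rw [← h1]
      refine Finset.sum_congr rfl fun w _ => ?_
      simp only [sgnMap, LinearMap.coe_mk, AddHom.coe_mk]
      ring
    have h3 := (Finset.sum_eq_zero_iff_of_nonneg (fun w _ => mul_self_nonneg (sgnMap n g w))).mp h2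
    funext w
    have := h3 w (mem_univ w)
    exact mul_self_eq_zero.mp this
  have h1 := Submodule.finrank_add_finrank_le_of_disjoint hdisj
  have h2 : Module.finrank ℚ ((V n d').map (sgnMap n)) = Module.finrank ℚ (V n d') :=
    (Submodule.equivMapOfInjective (sgnMap n) (sgnMap_injective n) (V n d')).finrank_eq.symm
  rw [h2] at h1
  rw [Module.finrank_fintype_fun_eq_card, Fintype.card_perm, Fintype.card_fin] at h1
  exact h1

/-! ### The polynomial of a permutation -/

open Classical in
/-- The product over the failed tests of the first `t` rounds. -/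
noncomputable def pol (S : Strategy n) (σ : Equiv.Perm (Fin n)) (t : ℕ) :
    Equiv.Perm (Fin n) → ℚ := fun w =>
  ∏ i, ∏ s ∈ (range t).filter (fun s => guess S σ s i ≠ σ i),
    (((w i : ℕ) : ℚ) - ((guess S σ s i : ℕ) : ℚ))

lemma pol_mem (S : Strategy n) (σ : Equiv.Perm (Fin n)) {t d : ℕ} (h : t ≤ d) :
    pol S σ t ∈ V n d := by
  classical
  have h1 : pol S σ t = fun w : Equiv.Perm (Fin n) => ∏ i,
      (∏ s ∈ (range t).filter (fun s => guess S σ s i ≠ σ i),
        (X - C (((guess S σ s i : ℕ) : ℚ)))).eval ((w i : ℕ) : ℚ) := by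
    funext w
    simp only [pol, Polynomial.eval_prod, eval_sub, eval_X, eval_C]
  rw [h1]
  refine mem_V _ fun i => ?_
  refine (Polynomial.natDegree_prod_le _ _).trans ?_
  refine (Finset.sum_le_sum (g := fun _ => 1) fun s _ => ?_).trans ?_
  · exact (Polynomial.natDegree_X_sub_C _).le
  · rw [Finset.sum_const, smul_eq_mul, mul_one]
    exact (Finset.card_filter_le _ _).trans (by rw [card_range]; exact h)

lemma pol_self (S : Strategy n) (σ : Equiv.Perm (Fin n)) (t : ℕ) : pol S σ t σ ≠ 0 := by
  classical
  unfold pol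
  refine Finset.prod_ne_zero_iff.mpr fun i _ => Finset.prod_ne_zero_iff.mpr fun s hs => ?_
  rw [mem_filter] at hs
  intro h
  apply hs.2
  have h2 : ((σ i : ℕ) : ℚ) = ((guess S σ s i : ℕ) : ℚ) := sub_eq_zero.mp h
  exact Fin.ext (by exact_mod_cast h2.symm)

lemma pol_ne_zero (S : Strategy n) (σ w : Equiv.Perm (Fin n)) (t : ℕ) (h : pol S σ t w ≠ 0) :
    ∀ s < t, ∀ i, guess S σ s i ≠ σ i → guess S σ s i ≠ w i := by
  classical
  unfold pol at h
  intro s hs i hi hw
  have h1 := Finset.prod_ne_zero_iff.mp h i (mem_univ i)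
  have h2 := Finset.prod_ne_zero_iff.mp h1 s (mem_filter.mpr ⟨mem_range.mpr hs, hi⟩)
  apply h2
  rw [hw, sub_self]

/-- The cardinalities of the feedback sets, written in base `n + 1`. -/
noncomputable def code (S : Strategy n) (σ : Equiv.Perm (Fin n)) : ℕ → ℕ
  | 0 => 0
  | r + 1 => code S σ r * (n + 1) + (feedback (guess S σ r) σ).card

lemma card_feedback_le (g : Fin n → Fin n) (σ : Equiv.Perm (Fin n)) :
    (feedback g σ).card ≤ n := by
  have := Finset.card_le_univ (feedback g σ)
  rwa [Fintype.card_fin] at this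

lemma history_eq_of (S : Strategy n) (σ w : Equiv.Perm (Fin n)) (s : ℕ)
    (h : ∀ q < s, feedback (guess S σ q) σ = feedback (guess S w q) w) :
    history S σ s = history S w s := by
  induction s with
  | zero => rfl
  | succ s ih =>
    have h1 := ih fun q hq => h q (by omega)
    have h2 := h s (by omega)
    simp only [history]
    rw [h1]
    congr 2
    simpa only [guess, h1] using h2

lemma code_lt_of (S : Strategy n) (σ w : Equiv.Perm (Fin n)) {s : ℕ}
    (h : ∀ q < s, feedback (guess S σ q) σ = feedback (guess S w q) w)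
    (h2 : (feedback (guess S w s) w).card < (feedback (guess S σ s) σ).card) :
    ∀ r, s < r → code S w r < code S σ r := by
  have h0 : ∀ q ≤ s, code S w q = code S σ q := by
    intro q
    induction q with
    | zero => intro _; rfl
    | succ q ih =>
      intro hq
      simp only [code]
      rw [ih (by omega), h q (by omega)]
  intro r hr
  induction r with
  | zero => omega
  | succ r ih =>
    rcases Nat.lt_or_ge s r with h3 | h3
    · have h4 := ih h3
      have h5 := card_feedback_le (guess S w r) w
      simp only [code]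
      have h6 : (code S w r + 1) * (n + 1) ≤ code S σ r * (n + 1) :=
        Nat.mul_le_mul_right _ h4
      have h7 : (code S w r + 1) * (n + 1) = code S w r * (n + 1) + (n + 1) := by ring
      omega
    · have h4 : r = s := by omega
      subst h4
      simp only [code]
      rw [h0 r le_rfl]
      omega

/-- Triangularity. -/
lemma code_lt_of_pol (S : Strategy n) (σ w : Equiv.Perm (Fin n)) {t r : ℕ} (htr : t < r)
    (ht : guess S σ t = σ) (hne : w ≠ σ) (h : pol S σ t w ≠ 0) : code S w r < code S σ r := by
  classical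
  have h1 := pol_ne_zero S σ w t h
  -- the first round with different feedback
  by_cases hex : ∃ s, s < t ∧ feedback (guess S σ s) σ ≠ feedback (guess S w s) w
  · obtain ⟨hs, hne2⟩ := Nat.find_spec hex
    set s := Nat.find hex with hsdef
    have hprev : ∀ q < s, feedback (guess S σ q) σ = feedback (guess S w q) w := by
      intro q hq
      by_contra hc
      exact Nat.find_min hex hq ⟨by omega, hc⟩
    have hh := history_eq_of S σ w s hprev
    have hg : guess S w s = guess S σ s := by simp only [guess, hh]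
    refine code_lt_of S σ w hprev ?_ r (by omega)
    refine Finset.card_lt_card ?_
    rw [Finset.ssubset_iff_subset_ne]
    refine ⟨?_, fun hc => hne2 hc.symm⟩
    intro i hi
    simp only [feedback, mem_filter, mem_univ, true_and] at hi ⊢
    rw [hg] at hi
    by_contra hc
    exact h1 s hs i hc hi
  · push Not at hex
    have hh := history_eq_of S σ w t hex
    have hg : guess S w t = guess S σ t := by simp only [guess, hh]
    refine code_lt_of S σ w hex ?_ r htr
    refine Finset.card_lt_card ?_
    rw [Finset.ssubset_iff_subset_ne]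
    have huniv : feedback (guess S σ t) σ = univ := by
      ext i
      simp [feedback, ht]
    rw [huniv]
    refine ⟨subset_univ _, fun hc => hne ?_⟩
    ext i
    have hi : i ∈ feedback (guess S w t) w := by rw [hc]; exact mem_univ i
    simp only [feedback, mem_filter, mem_univ, true_and, hg, ht] at hi
    rw [hi]

/-- The number of the permutations found within `d + 1` rounds is at most the dimension of the
space of the functions of box degree at most `d`. -/
lemma winCount_le (S : Strategy n) (d : ℕ) : winCount S (d + 1) ≤ Module.finrank ℚ (V n d) := by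
  classical
  unfold winCount
  set A := univ.filter (fun σ : Equiv.Perm (Fin n) => WinsWithin S σ (d + 1)) with hA
  have hw : ∀ σ : A, ∃ t, t < d + 1 ∧ guess S σ.1 t = σ.1 := fun σ => (mem_filter.mp σ.2).2
  choose t ht hg using hw
  let v : A → V n d := fun σ => ⟨pol S σ.1 (t σ), pol_mem S σ.1 (by have := ht σ; omega)⟩
  have hli : LinearIndependent ℚ v := by
    rw [Fintype.linearIndependent_iff]
    intro g hg0
    by_contra hcon
    push Not at hcon
    obtain ⟨i, hi⟩ := hcon
    obtain ⟨m, hm, hmax⟩ := Finset.exists_max_image (univ.filter fun σ : A => g σ ≠ 0)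
      (fun σ => code S σ.1 (d + 1)) ⟨i, by simpa using hi⟩
    rw [mem_filter] at hm
    have h1 : (∑ σ : A, g σ • v σ : V n d).1 m.1 = 0 := by rw [hg0]; rfl
    rw [Submodule.coe_sum, Finset.sum_apply] at h1
    rw [Finset.sum_eq_single m] at h1
    · simp only [Submodule.coe_smul, Pi.smul_apply, smul_eq_mul, v] at h1
      rcases mul_eq_zero.mp h1 with h2 | h2
      · exact hm.2 h2
      · exact pol_self S m.1 _ h2
    · intro σ _ hne
      simp only [Submodule.coe_smul, Pi.smul_apply, smul_eq_mul, v]
      by_cases hz : g σ = 0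
      · rw [hz, zero_mul]
      · by_contra hc
        have h2 : pol S σ.1 (t σ) m.1 ≠ 0 := fun h => hc (by rw [h, mul_zero])
        have h3 := code_lt_of_pol S σ.1 m.1 (ht σ) (hg σ)
          (fun h => hne (Subtype.ext h.symm)) h2
        have h4 := hmax σ (mem_filter.mpr ⟨mem_univ _, hz⟩)
        omega
    · intro h; exact absurd (mem_univ m) h
  have h2 := hli.fintype_card_le_finrank
  rwa [Fintype.card_coe] at h2

lemma winCount_zero (S : Strategy n) : winCount S 0 = 0 := by
  classical
  unfold winCount
  rw [Finset.card_eq_zero, Finset.filter_eq_empty_iff]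
  rintro σ _ ⟨s, hs, _⟩
  omega

lemma winCount_le_factorial (S : Strategy n) (r : ℕ) : winCount S r ≤ n.factorial := by
  classical
  unfold winCount
  refine (Finset.card_le_univ _).trans ?_
  rw [Fintype.card_perm, Fintype.card_fin]

/-- The main inequality, for any two strategies. -/
theorem winCount_add (S T : Strategy n) {r q : ℕ} (h : r + q ≤ n) :
    winCount S r + winCount T q ≤ n.factorial := by
  rcases Nat.eq_zero_or_pos r with hr | hr
  · subst hr
    rw [winCount_zero, zero_add]
    exact winCount_le_factorial T q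
  rcases Nat.eq_zero_or_pos q with hq | hq
  · subst hq
    rw [winCount_zero, add_zero]
    exact winCount_le_factorial S r
  obtain ⟨d, rfl⟩ : ∃ d, r = d + 1 := ⟨r - 1, by omega⟩
  obtain ⟨d', rfl⟩ : ∃ d', q = d' + 1 := ⟨q - 1, by omega⟩
  have h1 := winCount_le S d
  have h2 := winCount_le T d'
  have h3 := finrank_V_add (n := n) (d := d) (d' := d') (by omega)
  omega

end Q156.PW
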