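import Pool.Agent.Q156.PW.Shift

/-!
# The expected number of rounds
-/

open Finset
open scoped ENNReal

namespace Q156.PW

/-- The round in which the strategy wins (`⊤` if it never does). -/
noncomputable def winRound {n : ℕ} (S : Strategy n) (σ : Equiv.Perm (Fin n)) : ℕ∞ :=
  ⨅ (r : ℕ) (_ : WinsWithin S σ r), (r : ℕ∞)

/-- The expected round in which the strategy wins, for a uniformly random hidden permutation. -/
noncomputable def expectedRounds {n : ℕ} (S : Strategy n) : ℝ≥0∞ :=
  (∑ σ : Equiv.Perm (Fin n), ((winRound S σ : ℕ∞) : ℝ≥0∞)) / (n.factorial : ℝ≥0∞)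

/-- The probability that the strategy wins within its first `r` guesses. -/
noncomputable def winProb {n : ℕ} (S : Strategy n) (r : ℕ) : ℝ :=
  (winCount S r : ℝ) / (n.factorial : ℝ)

variable {n : ℕ}

lemma sum_exc (hn : 0 < n) :
    2 * ∑ σ : Equiv.Perm (Fin n), (exc σ + 1) = n.factorial * (n + 1) := by
  classical
  have h1 : ∑ σ : Equiv.Perm (Fin n), (exc σ + 1) = ∑ σ : Equiv.Perm (Fin n),
      (exc (flip n σ) + 1) :=
    ((flip n).sum_comp (fun σ => exc σ + 1)).symm
  have h2 : ∑ σ : Equiv.Perm (Fin n), (exc σ + 1) + ∑ σ : Equiv.Perm (Fin n),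
      (exc (flip n σ) + 1) = n.factorial * (n + 1) := by
    rw [← Finset.sum_add_distrib]
    have : ∀ σ : Equiv.Perm (Fin n), (exc σ + 1) + (exc (flip n σ) + 1) = n + 1 := by
      intro σ
      have := exc_flip hn σ
      omega
    rw [Finset.sum_congr rfl fun σ _ => this σ, Finset.sum_const, card_univ, Fintype.card_perm,
      Fintype.card_fin, smul_eq_mul]
  omega

open Classical in
lemma card_fail_le (S : Strategy n) (σ : Equiv.Perm (Fin n)) :
    (((range n).filter (fun r => ¬ WinsWithin S σ r)).card : ℕ∞) ≤ winRound S σ := by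
  unfold winRound
  refine le_iInf fun r => le_iInf fun hr => ?_
  have : ((range n).filter (fun q => ¬ WinsWithin S σ q)).card ≤ r := by
    calc ((range n).filter (fun q => ¬ WinsWithin S σ q)).card ≤ (range r).card := by
          refine Finset.card_le_card fun q hq => ?_
          rw [mem_filter] at hq
          rw [mem_range]
          by_contra hc
          exact hq.2 (winsWithin_mono (not_lt.mp hc) hr)
      _ = r := card_range r
  exact_mod_cast this

open Classical in
lemma sum_card_fail (hn : 0 < n) (S : Strategy n) :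
    n.factorial * (n + 1) ≤
      2 * ∑ σ : Equiv.Perm (Fin n), ((range n).filter (fun r => ¬ WinsWithin S σ r)).card := by
  rw [← sum_exc hn]
  refine Nat.mul_le_mul_left 2 ?_
  have e1 : ∑ σ : Equiv.Perm (Fin n), ((range n).filter (fun r => ¬ WinsWithin S σ r)).card =
      ∑ r ∈ range n, (univ.filter (fun σ : Equiv.Perm (Fin n) => ¬ WinsWithin S σ r)).card := by
    simp only [Finset.card_filter]
    exact Finset.sum_comm
  have e2 : ∑ σ : Equiv.Perm (Fin n), (exc σ + 1) =
      ∑ r ∈ range n, (univ.filter (fun σ : Equiv.Perm (Fin n) => ¬ exc σ + 1 ≤ r)).card := by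
    have : ∀ σ : Equiv.Perm (Fin n), exc σ + 1 =
        ((range n).filter (fun r => ¬ exc σ + 1 ≤ r)).card := by
      intro σ
      have h1 : (range n).filter (fun r => ¬ exc σ + 1 ≤ r) = range (exc σ + 1) := by
        ext r
        rw [mem_filter, mem_range, mem_range]
        have := exc_add_one_le hn σ
        omega
      rw [h1, card_range]
    rw [Finset.sum_congr rfl fun σ _ => this σ]
    simp only [Finset.card_filter]
    exact Finset.sum_comm
  rw [e1, e2]
  refine Finset.sum_le_sum fun r _ => ?_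
  have h1 := winCount_le_excCount hn S r
  have h2 : (univ.filter (fun σ : Equiv.Perm (Fin n) => WinsWithin S σ r)).card +
      (univ.filter (fun σ : Equiv.Perm (Fin n) => ¬ WinsWithin S σ r)).card =
      (univ : Finset (Equiv.Perm (Fin n))).card := Finset.card_filter_add_card_filter_not _
  have h3 : (univ.filter (fun σ : Equiv.Perm (Fin n) => exc σ + 1 ≤ r)).card +
      (univ.filter (fun σ : Equiv.Perm (Fin n) => ¬ exc σ + 1 ≤ r)).card =
      (univ : Finset (Equiv.Perm (Fin n))).card := Finset.card_filter_add_card_filter_not _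
  unfold winCount excCount at h1
  omega

theorem expected_ge (hn : 0 < n) (S : Strategy n) :
    ((n : ℝ≥0∞) + 1) / 2 ≤ expectedRounds S := by
  classical
  have h1 := sum_card_fail hn S
  have h2 : (2 : ℝ≥0∞) * ∑ σ : Equiv.Perm (Fin n), ((winRound S σ : ℕ∞) : ℝ≥0∞) ≥
      (n.factorial : ℝ≥0∞) * ((n : ℝ≥0∞) + 1) := by
    calc (n.factorial : ℝ≥0∞) * ((n : ℝ≥0∞) + 1)
        = ((n.factorial * (n + 1) : ℕ) : ℝ≥0∞) := by push_cast; ring
      _ ≤ ((2 * ∑ σ : Equiv.Perm (Fin n),
            ((range n).filter (fun r => ¬ WinsWithin S σ r)).card : ℕ) : ℝ≥0∞) := by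
          exact_mod_cast h1
      _ = 2 * ∑ σ : Equiv.Perm (Fin n),
            (((range n).filter (fun r => ¬ WinsWithin S σ r)).card : ℝ≥0∞) := by push_cast; rfl
      _ ≤ 2 * ∑ σ : Equiv.Perm (Fin n), ((winRound S σ : ℕ∞) : ℝ≥0∞) := by
          refine mul_le_mul_right (Finset.sum_le_sum fun σ _ => ?_) 2
          have := ENat.toENNReal_le.mpr (card_fail_le S σ)
          simpa using this
  unfold expectedRounds
  have hf0 : (n.factorial : ℝ≥0∞) ≠ 0 := by exact_mod_cast n.factorial_ne_zero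
  have hft : (n.factorial : ℝ≥0∞) ≠ ∞ := ENNReal.natCast_ne_top _
  rw [ENNReal.le_div_iff_mul_le (Or.inl hf0) (Or.inl hft)]
  rw [mul_comm, ← mul_div_assoc]
  refine ENNReal.div_le_of_le_mul ?_
  rw [mul_comm _ (2 : ℝ≥0∞)]
  exact h2

theorem expected_shift_le (hn : 0 < n) {B : PermStrategy n} (hB : IsCyclicShift B) :
    expectedRounds B.toStrategy ≤ ((n : ℝ≥0∞) + 1) / 2 := by
  classical
  have h2 : (2 : ℝ≥0∞) * ∑ σ : Equiv.Perm (Fin n), ((winRound B.toStrategy σ : ℕ∞) : ℝ≥0∞) ≤
      (n.factorial : ℝ≥0∞) * ((n : ℝ≥0∞) + 1) := by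
    calc (2 : ℝ≥0∞) * ∑ σ : Equiv.Perm (Fin n), ((winRound B.toStrategy σ : ℕ∞) : ℝ≥0∞)
        ≤ 2 * ∑ σ : Equiv.Perm (Fin n), ((exc σ + 1 : ℕ) : ℝ≥0∞) := by
          refine mul_le_mul_right (Finset.sum_le_sum fun σ _ => ?_) 2
          have h3 : winRound B.toStrategy σ ≤ ((exc σ + 1 : ℕ) : ℕ∞) :=
            iInf₂_le (exc σ + 1) (wins_of_shift hB σ)
          have := ENat.toENNReal_le.mpr h3
          simpa using this
      _ = ((2 * ∑ σ : Equiv.Perm (Fin n), (exc σ + 1) : ℕ) : ℝ≥0∞) := by push_cast; rfl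
      _ = (n.factorial : ℝ≥0∞) * ((n : ℝ≥0∞) + 1) := by
          rw [sum_exc hn]; push_cast; ring
  unfold expectedRounds
  have hf0 : (n.factorial : ℝ≥0∞) ≠ 0 := by exact_mod_cast n.factorial_ne_zero
  have hft : (n.factorial : ℝ≥0∞) ≠ ∞ := ENNReal.natCast_ne_top _
  rw [ENNReal.le_div_iff_mul_le (Or.inl two_ne_zero) (Or.inl ENNReal.ofNat_ne_top)]
  rw [mul_comm, ← mul_div_assoc]
  refine ENNReal.div_le_of_le_mul ?_
  rw [mul_comm _ (n.factorial : ℝ≥0∞)]
  exact h2

end Q156.PW
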