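import Pool.Agent.Q156.PW.Core

/-!
# The cyclic shift strategy
-/

open Finset

namespace Q156.PW

/-- A strategy all of whose guesses are permutations. -/
abbrev PermStrategy (n : ℕ) := List (Finset (Fin n)) → Equiv.Perm (Fin n)

/-- A strategy with permutations as guesses, as a strategy. -/
def PermStrategy.toStrategy {n : ℕ} (S : PermStrategy n) : Strategy n := fun h => ⇑(S h)

/-- The cyclic shift strategy: the first guess is the identity; after the feedback `U` (not all
positions correct) the correct entries stay fixed, and every incorrect position receives the entry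
of the preceding incorrect position; the first incorrect position receives the entry of the last
incorrect position. -/
def IsCyclicShift {n : ℕ} (B : PermStrategy n) : Prop :=
  B [] = 1 ∧
  ∀ (h : List (Finset (Fin n))) (U : Finset (Fin n)), U ≠ univ →
    (∀ i ∈ U, B (h ++ [U]) i = B h i) ∧
    (∀ i ∉ U, ∀ a ∉ U, a < i → (∀ b ∉ U, b < i → b ≤ a) → B (h ++ [U]) i = B h a) ∧
    (∀ i ∉ U, (∀ b ∉ U, i ≤ b) → ∀ a ∉ U, (∀ b ∉ U, b ≤ a) → B (h ++ [U]) i = B h a)

/-- The number of exceedances. -/
def exc {n : ℕ} (σ : Equiv.Perm (Fin n)) : ℕ := (univ.filter (fun i => i < σ i)).card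

variable {n : ℕ}

lemma rho_step {B : PermStrategy n} (hB : IsCyclicShift B) (σ : Equiv.Perm (Fin n))
    (h : List (Finset (Fin n))) (hne : B h ≠ σ) :
    exc ((B (h ++ [feedback (B h) σ]))⁻¹ * σ) + 1 ≤ exc ((B h)⁻¹ * σ) := by
  classical
  set U := feedback (⇑(B h)) σ with hU
  have hmemU : ∀ i, i ∈ U ↔ B h i = σ i := fun i => by simp [hU, feedback]
  have hUne : U ≠ univ := by
    intro hc
    apply hne
    ext i
    have : i ∈ U := by rw [hc]; exact mem_univ i
    rw [(hmemU i).mp this]
  obtain ⟨h1, h2, h3⟩ := hB.2 h U hUne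
  -- complement
  set C := Uᶜ with hC
  have hCne : C.Nonempty := by
    rw [Finset.nonempty_iff_ne_empty]
    intro hc
    apply hUne
    rw [hC, Finset.compl_eq_empty_iff] at hc
    exact hc
  have hmemC : ∀ i, i ∈ C ↔ i ∉ U := fun i => by rw [hC, mem_compl]
  set ρ := (B h)⁻¹ * σ with hρ
  set ρ' := (B (h ++ [U]))⁻¹ * σ with hρ'
  have hρ_eq : ∀ i, B h (ρ i) = σ i := fun i => by simp [hρ]
  have hρ'_iff : ∀ i y, B (h ++ [U]) y = σ i → ρ' i = y := by
    intro i y hy
    rw [hρ', Equiv.Perm.mul_apply, ← hy]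
    simp
  have hUfix : ∀ i ∈ U, ρ i = i := by
    intro i hi
    have := (hmemU i).mp hi
    rw [hρ, Equiv.Perm.mul_apply, ← this]
    simp
  have hfixU : ∀ i, ρ i = i → i ∈ U := by
    intro i hi
    rw [hmemU]
    have := hρ_eq i
    rwa [hi] at this
  have hρC : ∀ i, i ∈ C → ρ i ∈ C := by
    intro i hi
    rw [hmemC] at hi ⊢
    intro hc
    have h4 := hUfix _ hc
    have h5 := ρ.injective h4
    rw [h5] at hc
    exact hi hc
  set m := C.max' hCne with hm
  have hmC : m ∈ C := C.max'_mem hCne
  have hmle : ∀ b ∈ C, b ≤ m := fun b hb => C.le_max' b hb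
  set l := C.min' hCne with hl
  have hlC : l ∈ C := C.min'_mem hCne
  have hlle : ∀ b ∈ C, l ≤ b := fun b hb => C.min'_le b hb
  -- the step
  have hfix : ∀ i ∈ U, ρ' i = i := by
    intro i hi
    apply hρ'_iff
    rw [h1 i hi]
    exact (hmemU i).mp hi
  have hwrap : ∀ i, ρ i = m → ρ' i = l := by
    intro i hi
    apply hρ'_iff
    rw [h3 l ((hmemC l).mp hlC) (fun b hb => hlle b ((hmemC b).mpr hb)) m ((hmemC m).mp hmC)
      (fun b hb => hmle b ((hmemC b).mpr hb)), ← hi, hρ_eq]
  have hnext : ∀ i, ∀ y ∈ C, ρ i ∈ C → ρ i < y → (∀ b ∈ C, b < y → b ≤ ρ i) → ρ' i = y := by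
    intro i y hy hρi hlt hb
    apply hρ'_iff
    rw [h2 y ((hmemC y).mp hy) (ρ i) ((hmemC _).mp hρi) hlt
      (fun b hb' hby => hb b ((hmemC b).mpr hb') hby), hρ_eq]
  -- existence of the next element
  have hexnext : ∀ x ∈ C, ∀ z ∈ C, x < z → ∃ y ∈ C, x < y ∧ y ≤ z ∧ ∀ b ∈ C, b < y → b ≤ x := by
    intro x hx z hz hxz
    have hne' : (C.filter (fun b => x < b)).Nonempty := ⟨z, mem_filter.mpr ⟨hz, hxz⟩⟩
    refine ⟨(C.filter (fun b => x < b)).min' hne', ?_, ?_, ?_, ?_⟩
    · exact (mem_filter.mp (Finset.min'_mem _ hne')).1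
    · exact (mem_filter.mp (Finset.min'_mem _ hne')).2
    · exact Finset.min'_le _ _ (mem_filter.mpr ⟨hz, hxz⟩)
    · intro b hb hlt
      by_contra hc
      exact absurd (Finset.min'_le _ b (mem_filter.mpr ⟨hb, not_le.mp hc⟩)) (not_le.mpr hlt)
  have hsub : univ.filter (fun i => i < ρ' i) ⊆ univ.filter (fun i => i < ρ i) := by
    intro i hi
    rw [mem_filter] at hi ⊢
    refine ⟨mem_univ _, ?_⟩
    by_contra hc
    push Not at hc
    rcases hc.lt_or_eq with hlt | heq
    · -- ρ i < i
      have hiC : i ∈ C := by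
        rw [hmemC]
        intro hiU
        rw [hUfix i hiU] at hlt
        exact lt_irrefl _ hlt
      obtain ⟨y, hy, hy1, hy2, hy3⟩ := hexnext (ρ i) (hρC i hiC) i hiC hlt
      have := hnext i y hy (hρC i hiC) hy1 hy3
      rw [this] at hi
      exact absurd hi.2 (not_lt.mpr hy2)
    · have hiU := hfixU i heq
      rw [hfix i hiU] at hi
      exact lt_irrefl _ hi.2
  -- the element mapped to the maximum
  set i0 := ρ⁻¹ m with hi0
  have hρi0 : ρ i0 = m := by simp [hi0]
  have hi0C : i0 ∈ C := by
    rw [hmemC]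
    intro hc
    have := hUfix i0 hc
    rw [hρi0] at this
    rw [← this] at hc
    exact (hmemC m).mp hmC hc
  have hi0lt : i0 < m := by
    refine lt_of_le_of_ne (hmle i0 hi0C) ?_
    intro hc
    have : i0 ∈ U := hfixU i0 (by rw [hρi0, hc])
    exact (hmemC i0).mp hi0C this
  have hssub : univ.filter (fun i => i < ρ' i) ⊂ univ.filter (fun i => i < ρ i) := by
    rw [Finset.ssubset_iff_of_subset hsub]
    refine ⟨i0, ?_, ?_⟩
    · rw [mem_filter]; exact ⟨mem_univ _, by rw [hρi0]; exact hi0lt⟩
    · rw [mem_filter]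
      rintro ⟨_, hc⟩
      rw [hwrap i0 hρi0] at hc
      exact absurd hc (not_lt.mpr (hlle i0 hi0C))
  exact Finset.card_lt_card hssub

/-- The cyclic shift strategy finds `σ` within `1 + exc σ` rounds. -/
lemma wins_of_shift {B : PermStrategy n} (hB : IsCyclicShift B) (σ : Equiv.Perm (Fin n)) :
    WinsWithin B.toStrategy σ (exc σ + 1) := by
  by_contra hcon
  have hfail : ∀ s ≤ exc σ, B (history B.toStrategy σ s) ≠ σ := by
    intro s hs hc
    exact hcon ⟨s, by omega, by
      simp only [guess, PermStrategy.toStrategy]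
      exact congrArg _ hc⟩
  have key : ∀ s ≤ exc σ + 1, exc ((B (history B.toStrategy σ s))⁻¹ * σ) + s ≤ exc σ := by
    intro s
    induction s with
    | zero =>
      intro _
      simp only [history, hB.1, inv_one, one_mul, add_zero, le_refl]
    | succ s ih =>
      intro hs
      have h1 := ih (by omega)
      have h2 := rho_step hB σ (history B.toStrategy σ s) (hfail s (by omega))
      have h3 : history B.toStrategy σ (s + 1) =
          history B.toStrategy σ s ++ [feedback (B (history B.toStrategy σ s)) σ] := rfl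
      rw [h3]
      omega
  have := key (exc σ + 1) le_rfl
  omega

/-! ### Existence of the cyclic shift strategy -/

/-- The next element of `C`, cyclically. -/
def nxt (C : Finset (Fin n)) (x : Fin n) : Fin n :=
  if hx : x ∈ C then
    if h : (C.filter (fun b => x < b)).Nonempty then (C.filter (fun b => x < b)).min' h
    else C.min' ⟨x, hx⟩
  else x

lemma nxt_not_mem {C : Finset (Fin n)} {x : Fin n} (h : x ∉ C) : nxt C x = x := by
  simp [nxt, h]

lemma nxt_mem {C : Finset (Fin n)} {x : Fin n} (hx : x ∈ C) : nxt C x ∈ C := by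
  unfold nxt
  rw [dif_pos hx]
  split_ifs with h
  · exact (mem_filter.mp (Finset.min'_mem _ h)).1
  · exact Finset.min'_mem _ _

lemma nxt_of_next {C : Finset (Fin n)} {x y : Fin n} (hx : x ∈ C) (hy : y ∈ C) (hxy : x < y)
    (hb : ∀ b ∈ C, b < y → b ≤ x) : nxt C x = y := by
  unfold nxt
  have h : (C.filter (fun b => x < b)).Nonempty := ⟨y, mem_filter.mpr ⟨hy, hxy⟩⟩
  rw [dif_pos hx, dif_pos h]
  apply le_antisymm
  · exact Finset.min'_le _ _ (mem_filter.mpr ⟨hy, hxy⟩)
  · refine Finset.le_min' _ _ _ fun b hb' => ?_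
    rw [mem_filter] at hb'
    by_contra hc
    exact absurd (hb b hb'.1 (not_le.mp hc)) (not_le.mpr hb'.2)

lemma nxt_of_max {C : Finset (Fin n)} {x y : Fin n} (hx : x ∈ C) (hxm : ∀ b ∈ C, b ≤ x)
    (hy : y ∈ C) (hym : ∀ b ∈ C, y ≤ b) : nxt C x = y := by
  unfold nxt
  have h : ¬ (C.filter (fun b => x < b)).Nonempty := by
    rintro ⟨b, hb⟩
    rw [mem_filter] at hb
    exact absurd (hxm b hb.1) (not_le.mpr hb.2)
  rw [dif_pos hx, dif_neg h]
  exact le_antisymm (Finset.min'_le _ _ hy) (Finset.le_min' _ _ _ hym)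

lemma nxt_injective (C : Finset (Fin n)) : Function.Injective (nxt C) := by
  have key : ∀ x y, x ∈ C → y ∈ C → x < y → nxt C x ≠ nxt C y := by
    intro x y hx hy hxy hc
    have h : (C.filter (fun b => x < b)).Nonempty := ⟨y, mem_filter.mpr ⟨hy, hxy⟩⟩
    have h1 : nxt C x = (C.filter (fun b => x < b)).min' h := by
      unfold nxt; rw [dif_pos hx, dif_pos h]
    have h2 : nxt C x ≤ y := by rw [h1]; exact Finset.min'_le _ _ (mem_filter.mpr ⟨hy, hxy⟩)
    have h3 : x < nxt C x := by rw [h1]; exact (mem_filter.mp (Finset.min'_mem _ h)).2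
    by_cases h4 : (C.filter (fun b => y < b)).Nonempty
    · have h5 : nxt C y = (C.filter (fun b => y < b)).min' h4 := by
        unfold nxt; rw [dif_pos hy, dif_pos h4]
      have h6 : y < nxt C y := by rw [h5]; exact (mem_filter.mp (Finset.min'_mem _ h4)).2
      rw [← hc] at h6
      exact absurd h2 (not_le.mpr h6)
    · have h5 : nxt C y = C.min' ⟨y, hy⟩ := by
        unfold nxt; rw [dif_pos hy, dif_neg h4]
      have h6 : nxt C y ≤ x := by rw [h5]; exact Finset.min'_le _ _ hx
      rw [← hc] at h6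
      exact absurd h6 (not_le.mpr h3)
  intro x y hxy
  by_cases hx : x ∈ C <;> by_cases hy : y ∈ C
  · rcases lt_trichotomy x y with h | h | h
    · exact absurd hxy (key x y hx hy h)
    · exact h
    · exact absurd hxy.symm (key y x hy hx h)
  · rw [nxt_not_mem hy] at hxy
    exact absurd (hxy ▸ nxt_mem hx) hy
  · rw [nxt_not_mem hx] at hxy
    exact absurd (hxy ▸ nxt_mem hy) hx
  · rwa [nxt_not_mem hx, nxt_not_mem hy] at hxy

/-- The cyclic shift of `C` as a permutation. -/
noncomputable def rot (C : Finset (Fin n)) : Equiv.Perm (Fin n) :=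
  Equiv.ofBijective (nxt C) (Finite.injective_iff_bijective.mp (nxt_injective C))

lemma rot_apply (C : Finset (Fin n)) (x : Fin n) : rot C x = nxt C x := rfl

lemma rot_inv_eq {C : Finset (Fin n)} {x y : Fin n} (h : nxt C x = y) : (rot C)⁻¹ y = x := by
  rw [← h, ← rot_apply]
  simp

/-- The cyclic shift strategy. -/
noncomputable def shiftStrategy (n : ℕ) : PermStrategy n := fun h =>
  h.foldl (fun γ U => γ * (rot Uᶜ)⁻¹) 1

lemma shiftStrategy_append (h : List (Finset (Fin n))) (U : Finset (Fin n)) :
    shiftStrategy n (h ++ [U]) = shiftStrategy n h * (rot Uᶜ)⁻¹ := by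
  simp [shiftStrategy, List.foldl_append]

lemma isCyclicShift_shiftStrategy (n : ℕ) : IsCyclicShift (shiftStrategy n) := by
  refine ⟨rfl, fun h U _ => ⟨?_, ?_, ?_⟩⟩
  · intro i hi
    rw [shiftStrategy_append, Equiv.Perm.mul_apply,
      rot_inv_eq (nxt_not_mem (by simpa using hi) : nxt Uᶜ i = i)]
  · intro i hi a ha hai hb
    rw [shiftStrategy_append, Equiv.Perm.mul_apply,
      rot_inv_eq (nxt_of_next (by simpa using ha) (by simpa using hi) hai
        (fun b hb' => hb b (by simpa using hb')))]
  · intro i hi him a ha ham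
    rw [shiftStrategy_append, Equiv.Perm.mul_apply,
      rot_inv_eq (nxt_of_max (by simpa using ha) (fun b hb => ham b (by simpa using hb))
        (by simpa using hi) (fun b hb => him b (by simpa using hb)))]

/-! ### The symmetry of the Eulerian numbers -/

lemma exc_symm (m : ℕ) (σ : Equiv.Perm (Fin (m + 1))) :
    exc (σ⁻¹ * finRotate (m + 1)) + exc σ + 1 = m + 1 := by
  classical
  set c := finRotate (m + 1) with hc
  set π := c⁻¹ * σ with hπ
  have hσπ : ∀ i, σ i = π i + 1 := by
    intro i
    have : c (π i) = σ i := by simp [hπ]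
    rw [← this, hc, finRotate_apply]
  have hinv : σ⁻¹ * c = π⁻¹ := by simp [hπ]
  rw [hinv]
  -- exc π⁻¹
  have h1 : exc π⁻¹ = (univ.filter (fun i => π i < i)).card := by
    unfold exc
    refine Finset.card_bij' (fun j _ => π⁻¹ j) (fun i _ => π i) ?_ ?_ ?_ ?_
    · intro j hj
      rw [mem_filter] at hj ⊢
      refine ⟨mem_univ _, ?_⟩
      simpa using hj.2
    · intro i hi
      rw [mem_filter] at hi ⊢
      refine ⟨mem_univ _, ?_⟩
      simpa using hi.2
    · intro j _; simp
    · intro i _; simp
  have h2 : (univ.filter (fun i => π i < i)).card + (univ.filter (fun i => ¬ π i < i)).card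
      = m + 1 := by
    rw [Finset.card_filter_add_card_filter_not, card_univ, Fintype.card_fin]
  have h3 : univ.filter (fun i => ¬ π i < i) =
      insert (π⁻¹ (Fin.last m)) (univ.filter (fun i => i < σ i)) := by
    ext i
    rw [mem_insert, mem_filter, mem_filter, hσπ i, not_lt]
    simp only [mem_univ, true_and]
    by_cases hl : π i = Fin.last m
    · have : i = π⁻¹ (Fin.last m) := by rw [← hl]; simp
      constructor
      · intro _; left; exact this
      · intro _; rw [hl]; exact Fin.le_last _
    · have hne : i ≠ π⁻¹ (Fin.last m) := by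
        intro h; apply hl; rw [h]; simp
      simp only [hne, false_or]
      rw [Fin.lt_def, Fin.le_def, Fin.val_add_one, if_neg hl]
      omega
  have h4 : π⁻¹ (Fin.last m) ∉ univ.filter (fun i => i < σ i) := by
    rw [mem_filter, hσπ]
    rintro ⟨_, h⟩
    have : π (π⁻¹ (Fin.last m)) = Fin.last m := by simp
    rw [this, Fin.lt_def, Fin.val_add_one, if_pos rfl] at h
    omega
  rw [h3, Finset.card_insert_of_notMem h4] at h2
  rw [h1]
  unfold exc
  omega

lemma exc_add_one_le (hn : 0 < n) (σ : Equiv.Perm (Fin n)) : exc σ + 1 ≤ n := by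
  obtain ⟨m, rfl⟩ : ∃ m, n = m + 1 := ⟨n - 1, by omega⟩
  have := exc_symm m σ
  omega

/-- The number of the permutations with less than `r` exceedances. -/
def excCount (n r : ℕ) : ℕ := (univ.filter (fun σ : Equiv.Perm (Fin n) => exc σ + 1 ≤ r)).card

/-- The reversing bijection. -/
def flip (n : ℕ) : Equiv.Perm (Fin n) ≃ Equiv.Perm (Fin n) :=
  (Equiv.inv _).trans (Equiv.mulRight (finRotate n))

lemma exc_flip (hn : 0 < n) (σ : Equiv.Perm (Fin n)) : exc (flip n σ) + exc σ + 1 = n := by
  obtain ⟨m, rfl⟩ : ∃ m, n = m + 1 := ⟨n - 1, by omega⟩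
  exact exc_symm m σ

lemma excCount_add (hn : 0 < n) {r : ℕ} (hr : r ≤ n) :
    excCount n r + excCount n (n - r) = n.factorial := by
  classical
  have h1 : excCount n (n - r) =
      (univ.filter (fun σ : Equiv.Perm (Fin n) => ¬ exc σ + 1 ≤ r)).card := by
    unfold excCount
    refine Finset.card_bij' (fun σ _ => flip n σ) (fun σ _ => (flip n).symm σ) ?_ ?_ ?_ ?_
    · intro σ hσ
      rw [mem_filter] at hσ ⊢
      have := exc_flip hn σ
      refine ⟨mem_univ _, by omega⟩
    · intro σ hσ
      rw [mem_filter] at hσ ⊢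
      have := exc_flip hn ((flip n).symm σ)
      rw [Equiv.apply_symm_apply] at this
      refine ⟨mem_univ _, by omega⟩
    · intro σ _; simp
    · intro σ _; simp
  rw [h1, excCount, Finset.card_filter_add_card_filter_not, card_univ, Fintype.card_perm,
    Fintype.card_fin]

lemma winsWithin_mono {S : Strategy n} {σ : Equiv.Perm (Fin n)} {r q : ℕ} (h : r ≤ q)
    (hw : WinsWithin S σ r) : WinsWithin S σ q := by
  obtain ⟨s, hs, hg⟩ := hw
  exact ⟨s, by omega, hg⟩

lemma excCount_le_winCount {B : PermStrategy n} (hB : IsCyclicShift B) (r : ℕ) :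
    excCount n r ≤ winCount B.toStrategy r := by
  classical
  unfold excCount winCount
  refine Finset.card_le_card fun σ hσ => ?_
  rw [mem_filter] at hσ ⊢
  exact ⟨mem_univ _, winsWithin_mono hσ.2 (wins_of_shift hB σ)⟩

/-- No strategy finds more than `excCount n r` permutations within `r` rounds. -/
theorem winCount_le_excCount (hn : 0 < n) (S : Strategy n) (r : ℕ) :
    winCount S r ≤ excCount n r := by
  rcases Nat.lt_or_ge n r with h | h
  · have h1 : excCount n r = n.factorial := by
      unfold excCount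
      rw [Finset.filter_true_of_mem, card_univ, Fintype.card_perm, Fintype.card_fin]
      intro σ _
      have := exc_add_one_le hn σ
      omega
    rw [h1]
    exact winCount_le_factorial S r
  · have h1 := winCount_add S (shiftStrategy n).toStrategy (r := r) (q := n - r) (by omega)
    have h2 := excCount_le_winCount (isCyclicShift_shiftStrategy n) (n - r)
    have h3 := excCount_add hn h
    omega

theorem winCount_shift (hn : 0 < n) {B : PermStrategy n} (hB : IsCyclicShift B) (r : ℕ) :
    winCount B.toStrategy r = excCount n r :=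
  le_antisymm (winCount_le_excCount hn _ r) (excCount_le_winCount hB r)

end Q156.PW
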